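import Pool.Agent.K3h21.LN.Sys
import Pool.Agent.K3h21.IR.Fin

set_option autoImplicit false
set_option linter.unusedSectionVars false
set_option linter.unusedVariables false

/-! The theorem of Maynard and Tao for almost prime values, in narrow progressions, uniform in the system and
in the position. -/

namespace Pool.Agent.K3h21.LN

open Finset Filter
open Pool.Agent.Y677.RSZ (rt Sys rhoT per_mod ev_log V eng_all)
open Pool.Agent.TH423.SH (PS)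
open Pool.Agent.W23.DC
open Pool.Agent.Y882
open Pool.Agent.Y882.PX
open Pool.Agent.Y882.KW
open Pool.Agent.R498.MT
open Pool.Agent.K3h21.IR (many2)

/-- the numerical conditions -/
theorem nums3 (W H₀ q0 Y₀ NT a : ℕ) (c1 c2 ζ υ θ1 θ2 : ℝ) (hW : 2 ≤ W)
    (hζ : 0 < ζ) (hζθ : ζ ≤ θ1) (hυ : υ < θ1) (hθ : θ1 < θ2) :
    ∀ᶠ N : ℕ in atTop, 3 ≤ N ∧ Y₀ ≤ N ∧ (q0 : ℝ) + 2 ≤ (N : ℝ) ^ ζ ∧
      c1 * Real.log N ^ a ≤ (N : ℝ) ^ ζ ∧ c2 * Real.log N ^ a ≤ (N : ℝ) ^ (θ1 - υ) ∧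
      ∃ L : ℕ, W * (L + NT + 3) ≤ ⌊(N : ℝ) ^ θ2⌋₊ ∧ (N : ℝ) ^ θ1 ≤ L ∧ H₀ ≤ W * L := by
  have hT := tendsto_natCast_atTop_atTop (R := ℝ)
  have v1 : ∀ᶠ N : ℕ in atTop, (q0 : ℝ) + 2 ≤ (N : ℝ) ^ ζ :=
    ((tendsto_rpow_atTop hζ).comp hT).eventually_ge_atTop _
  have v3 := ev_log a c1 ζ hζ
  have v4 := ev_log a c2 (θ1 - υ) (by linarith)
  have v5 : ∀ᶠ N : ℕ in atTop, (5 * W : ℝ) ≤ (N : ℝ) ^ (θ2 - θ1) :=
    ((tendsto_rpow_atTop (by linarith)).comp hT).eventually_ge_atTop _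
  have v6 : ∀ᶠ N : ℕ in atTop, (3 : ℝ) + H₀ + NT ≤ (N : ℝ) ^ θ1 :=
    ((tendsto_rpow_atTop (by linarith)).comp hT).eventually_ge_atTop _
  filter_upwards [eventually_ge_atTop 3, eventually_ge_atTop Y₀, v1, v3, v4, v5, v6]
    with N e1 e2 w1 w3 w4 w5 w6
  have hNr : (3 : ℝ) ≤ N := by exact_mod_cast e1
  have hN0 : (0 : ℝ) < N := by linarith
  have hN1 : (1 : ℝ) ≤ N := by linarith
  have hWr : (2 : ℝ) ≤ W := by exact_mod_cast hW
  refine ⟨e1, e2, w1, w3, w4, ?_⟩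
  set Q : ℕ := ⌊(N : ℝ) ^ θ2⌋₊ with hQ
  have hQ1 : (N : ℝ) ^ θ2 - 1 < Q := by
    have := Nat.lt_floor_add_one ((N : ℝ) ^ θ2)
    linarith
  have hsplit : (N : ℝ) ^ θ2 = (N : ℝ) ^ θ1 * (N : ℝ) ^ (θ2 - θ1) := by
    rw [← Real.rpow_add hN0]
    congr 1
    ring
  have hH0 : (0 : ℝ) ≤ H₀ := Nat.cast_nonneg _
  have hNT0 : (0 : ℝ) ≤ NT := Nat.cast_nonneg _
  have hQ3 : (5 * W : ℝ) * (N : ℝ) ^ θ1 ≤ (N : ℝ) ^ θ2 := by
    rw [hsplit]
    nlinarith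
  have hQW : (Q : ℝ) < W * ((Q / W : ℕ) + 1) := by
    have h1 : Q < W * (Q / W + 1) := Nat.lt_mul_div_succ Q (show 0 < W by omega)
    exact_mod_cast h1
  have hkey : (N : ℝ) ^ θ1 + NT + 3 ≤ ((Q / W : ℕ) : ℝ) := by
    by_contra hcon
    push Not at hcon
    have h1 : (W : ℝ) * (((Q / W : ℕ) : ℝ) + 1) ≤ W * ((N : ℝ) ^ θ1 + NT + 3 + 1) := by gcongr
    have h2 : (5 * W : ℝ) * (N : ℝ) ^ θ1 - 1 < W * ((N : ℝ) ^ θ1 + NT + 3 + 1) := by linarith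
    have h3 : (W : ℝ) * ((N : ℝ) ^ θ1 + NT + 3 + 1) ≤ W * (3 * (N : ℝ) ^ θ1) := by
      apply mul_le_mul_of_nonneg_left _ (by linarith)
      linarith
    nlinarith
  obtain ⟨L, hL⟩ : ∃ L : ℕ, L + NT + 3 = Q / W := by
    have h1 : ((NT + 3 : ℕ) : ℝ) ≤ ((Q / W : ℕ) : ℝ) := by
      push_cast
      linarith [Real.rpow_nonneg hN0.le θ1]
    have h2 : NT + 3 ≤ Q / W := by exact_mod_cast h1
    exact ⟨Q / W - (NT + 3), by omega⟩
  have hLr : ((Q / W : ℕ) : ℝ) = L + NT + 3 := by rw [← hL]; push_cast; rfl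
  have hL1 : (N : ℝ) ^ θ1 ≤ L := by linarith
  refine ⟨L, ?_, hL1, ?_⟩
  · rw [hL]
    exact Nat.mul_div_le Q W
  · have h1 : (H₀ : ℝ) ≤ L := by linarith
    have h2 : H₀ ≤ L := by exact_mod_cast h1
    exact h2.trans (Nat.le_mul_of_pos_left _ (by omega))

/-- **Clusters of almost primes in narrow progressions, uniformly.** `Fam Y F G` are the systems which are
allowed at the scale `Y`; the window is `(M₀, M₀ + L₀]`, `L₀ ≥ Y ^ θ2`, at any position `M₀`. -/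
theorem finU (g D : ℕ) (hg1 : 1 ≤ g) (Fam : ℕ → (ℤ → ℤ) → (ℤ → ℤ) → Prop)
    (hFam : ∀ Y F G, Fam Y F G → Sys g F ∧ Sys g G ∧
      ∀ p : ℕ, p.Prime → ∀ n : ℤ, (p : ℤ) ∣ G n → (p : ℤ) ∣ F n)
    (hMer : ∀ ε₁ υ η : ℝ, 0 < ε₁ → υ ≤ 1 → 0 < η → ∃ Y0 : ℕ, ∀ Y : ℕ, Y0 ≤ Y → ∀ F G, Fam Y F G →
      Mer (pr Y ε₁ υ) (tt Y) (fun p => (rt G p : ℝ) / p) ε₁ υ η)
    (KK q0 : ℕ)
    (hSq : ∀ Y F G, Fam Y F G → ∀ q : ℕ, q.Prime → q0 ≤ q → ∀ N H : ℕ,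
      ((((Icc 1 H).filter (fun j : ℕ => ((q ^ 2 : ℕ) : ℤ) ∣ G ((N + j : ℕ) : ℤ))).card : ℕ) : ℝ) ≤
        KK * (H * (1 / (q : ℝ) ^ 2) + 1)) (r0 : ℕ) (τ θ2 B : ℝ) (hτ0 : 0 < τ) (hτθ : τ < θ2)
    (hθ2 : θ2 ≤ 1) (hBD : B ≤ 2 * D) (hr0 : 1 / (8 / 9 : ℝ) + B / (24 / 25 * τ) ≤ r0 + 1)
    (m : ℕ) :
    ∃ K₀ : ℕ, ∀ HH : Finset ℕ, K₀ ≤ HH.card → ∃ δ : ℝ, 0 < δ ∧ ∀ l : ℕ, 2 ≤ l →
      ∃ B' : ℕ, ∀ᶠ Y : ℕ in atTop, ∀ F G, Fam Y F G → ∀ M₀ L₀ : ℕ, (Y : ℝ) ^ θ2 ≤ L₀ →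
      (∀ n ∈ Ioc M₀ (M₀ + L₀), F (n : ℤ) ≠ 0 ∧ ((F (n : ℤ)).natAbs : ℝ) ≤ (Y : ℝ) ^ (D : ℝ) ∧
        G (n : ℤ) ≠ 0 ∧ ((G (n : ℤ)).natAbs : ℝ) ≤ (Y : ℝ) ^ B) →
      ∃ H ⊆ HH, H.card = m ∧ ∃ n d : ℕ, 1 ≤ d ∧
        (d : ℝ) ≤ Real.log Y ^ B' ∧ ∀ j < l, M₀ < n + j * d ∧ ∀ h ∈ H,
          n + j * d + h ≤ M₀ + L₀ ∧
          (G ((n + j * d + h : ℕ) : ℤ)).natAbs.primeFactorsList.length ≤ r0 ∧
          (∀ p : ℕ, p.Prime → (p : ℤ) ∣ G ((n + j * d + h : ℕ) : ℤ) →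
            (Y : ℝ) ^ (τ / 4) ≤ p) ∧
          ∀ p : ℕ, p.Prime → (p : ℤ) ∣ F ((n + j * d + h : ℕ) : ℤ) → (Y : ℝ) ^ δ ≤ p := by
  classical
  set υ : ℝ := 24 / 25 * τ with hυ
  have hυ0 : 0 < υ := by rw [hυ]; positivity
  have hcond : ∫ x in (τ / 4)..υ, ((8 / 9 : ℝ) - (8 / 9) / υ * x) / (τ - x) / x <
      Real.log (τ / (τ / 4) - 1) / τ := cond_A τ (8 / 9) hτ0 (by norm_num) (by norm_num)
  obtain ⟨θ1, hθ1⟩ : ∃ θ1 : ℝ, θ1 = (τ + θ2) / 2 := ⟨_, rfl⟩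
  obtain ⟨R, hR0, hR1, hR2⟩ : ∃ R : ℝ, 0 < R ∧ R < τ / 4 ∧ 2 * R + τ < θ1 := by
    refine ⟨min (τ / 8) ((θ2 - τ) / 8), lt_min (by linarith) (by linarith), ?_, ?_⟩
    · exact (min_le_left _ _).trans_lt (by linarith)
    · have := min_le_right (τ / 8) ((θ2 - τ) / 8)
      rw [hθ1]
      linarith
  obtain ⟨k, W, hW0, hWsq, hWp, hgW, ε₁, c, η, hε, hεζ, hc, hη, hcore⟩ :=
    coreU g D m τ (τ / 4) υ (8 / 9)
      ((8 / 9) / υ) θ1 R (by linarith) (by linarith) (by linarith) (by linarith) (by rw [hυ]; linarith)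
      (by rw [hυ]; linarith) (by norm_num) (by positivity)
      (by rw [div_mul_cancel₀ _ hυ0.ne']) hcond hR0 hR1 hR2
  have hW2 : 2 ≤ W := by
    have h1 : 2 ∣ W := hWp 2 Nat.prime_two (by
      have : 1 ≤ g * 2 ^ k := Nat.mul_pos hg1 (by positivity)
      omega)
    exact Nat.le_of_dvd hW0 h1
  refine ⟨W * 2 ^ k, ?_⟩
  intro HH hHH
  obtain ⟨r, t, hrW, ht, hmem⟩ := shifts W (2 ^ k) hW0 HH hHH
  obtain ⟨Y₀, hcore⟩ := hcore t ht
  obtain ⟨Y₁, hMer⟩ := hMer ε₁ υ η hε (by rw [hυ]; linarith) hη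
  obtain ⟨g', hS⟩ := FF_sys g (2 ^ k) W hW0 t hWp
  set κ : ℝ := c / (2 * 2 ^ 2 ^ k) / W with hκ
  have hW0r : (0 : ℝ) < W := by exact_mod_cast hW0
  have hκ0 : 0 < κ := by positivity
  have hθ10 : 0 < θ1 := by rw [hθ1]; linarith
  obtain ⟨E, hE⟩ : ∃ E : ℕ, (D * 2 ^ k : ℝ) / θ1 ≤ E := exists_nat_ge _
  refine ⟨ε₁ * θ1 / 2, by positivity, fun l hl => ?_⟩
  obtain ⟨B', H₀, hB⟩ := eng_all l (g' + E) (ε₁ / 2) κ hl (by positivity) hκ0
  obtain ⟨NT, hNT⟩ : ∃ NT : ℕ, ∀ i, t i ≤ NT :=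
    ⟨univ.sup t, fun i => Finset.le_sup (f := t) (mem_univ i)⟩
  refine ⟨B', ?_⟩
  have hnums := nums3 W H₀ q0 (max Y₀ Y₁) NT (2 * (g * 2 ^ k) + 1)
    (8 * (2 ^ k * KK * W) / c) (4 * (2 ^ k * KK) / c) (τ / 4) υ θ1 θ2 hW2 (by linarith)
    (by rw [hθ1]; linarith) (by rw [hυ]; linarith) (by linarith)
  filter_upwards [hnums] with N hN F G hfam M₀ L₀ hL₀ hval
  obtain ⟨n1, n2, n5, n9, n10, L, l1, l2, l3⟩ := hN
  obtain ⟨hFs, hGs, hGF⟩ := hFam N F G hfam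
  have hNr : (3 : ℝ) ≤ N := by exact_mod_cast n1
  have hN0 : (0 : ℝ) < N := by linarith
  have hN1 : (1 : ℝ) ≤ N := by linarith
  obtain ⟨b, hbW, hb⟩ := exb' hFs W hW0 hWsq
  have hLL : W * (L + NT + 3) ≤ L₀ := by
    have h1 : ((⌊(N : ℝ) ^ θ2⌋₊ : ℕ) : ℝ) ≤ L₀ := (Nat.floor_le (by positivity)).trans hL₀
    exact l1.trans (by exact_mod_cast h1)
  obtain ⟨M, hM⟩ : ∃ M : ℕ, M = (M₀ + r) / W + 1 := ⟨_, rfl⟩
  have hWM1 : M₀ + r < W * M := by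
    rw [hM]
    exact Nat.lt_mul_div_succ (M₀ + r) hW0
  have hWM2 : W * M ≤ M₀ + r + W := by
    have h1 : W * ((M₀ + r) / W) ≤ M₀ + r := Nat.mul_div_le _ _
    have h2 : W * ((M₀ + r) / W + 1) = W * ((M₀ + r) / W) + W := by ring
    rw [hM]
    omega
  obtain ⟨z, hz⟩ : ∃ z : ℕ, z + 1 = ⌈(N : ℝ) ^ ε₁⌉₊ := by
    have : 1 ≤ ⌈(N : ℝ) ^ ε₁⌉₊ := Nat.ceil_pos.2 (by positivity)
    exact ⟨⌈(N : ℝ) ^ ε₁⌉₊ - 1, by omega⟩
  have hz1 : (z : ℝ) < (N : ℝ) ^ ε₁ := by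
    have h1 := Nat.ceil_lt_add_one (show 0 ≤ (N : ℝ) ^ ε₁ by positivity)
    rw [← hz] at h1
    push_cast at h1
    linarith
  have hz2 : (N : ℝ) ^ ε₁ ≤ z + 1 := by
    have h1 := Nat.le_ceil ((N : ℝ) ^ ε₁)
    rw [← hz] at h1
    push_cast at h1
    exact h1
  -- the arguments lie in the window
  have hwin : ∀ x ∈ Ioc (W * M + b) (W * M + b + W * L), ∀ i, x + W * t i ∈ Ioc M₀ (M₀ + L₀) := by
    intro x hx i
    rw [mem_Ioc] at hx ⊢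
    have h1 : W * t i ≤ W * NT := Nat.mul_le_mul_left _ (hNT i)
    have h2 : W * (L + NT + 3) = W * L + W * NT + 3 * W := by ring
    omega
  have hpts : ∀ K ∈ Ioc M (M + L), ∀ i, W * (K + t i) + b ∈ Ioc M₀ (M₀ + L₀) := by
    intro K hK i
    have h3 : W * (K + t i) + b = (W * K + b) + W * t i := by ring
    rw [h3]
    apply hwin
    rw [mem_Ioc] at hK ⊢
    have h4 : W * (M + 1) ≤ W * K := Nat.mul_le_mul_left _ hK.1
    have h5 : W * K ≤ W * (M + L) := Nat.mul_le_mul_left _ hK.2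
    have h6 : W * (M + 1) = W * M + W := by ring
    have h7 : W * (M + L) = W * M + W * L := by ring
    constructor <;> omega
  obtain ⟨hgd, hV0, hV1⟩ := hcore N ((le_max_left _ _).trans n2) F G hFs hGs hGF
    (hMer N ((le_max_right _ _).trans n2) F G hfam) b hb M L z l2 (by
      intro K hK i
      obtain ⟨-, -, h1, h2⟩ := hval _ (hpts K hK i)
      exact ⟨h1, h2.trans (Real.rpow_le_rpow_of_exponent_le hN1 hBD)⟩) hz1 hz2
  obtain ⟨Hs, A, hHs, hA1, hA2⟩ := many2 F G KK q0 W b r M L N k m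
    (2 * (g * 2 ^ k) + 1) ε₁ (τ / 4) υ (8 / 9) ((8 / 9) / υ) c
    (Vp F W b z t) θ1 (hSq N F G hfam) hW0 n1 n5 t hc hV0 hV1 hgd l2 n9 n10
  have hWL : (N : ℝ) ^ θ1 ≤ ((W * L : ℕ) : ℝ) := by
    refine l2.trans ?_
    have : L ≤ W * L := Nat.le_mul_of_pos_left _ hW0
    exact_mod_cast this
  have hWL1 : 1 ≤ W * L := by
    have h1 : (1 : ℝ) ≤ ((W * L : ℕ) : ℝ) := le_trans (Real.one_le_rpow hN1 hθ10.le) hWL
    exact_mod_cast h1
  have hWLr : (1 : ℝ) ≤ ((W * L : ℕ) : ℝ) := by exact_mod_cast hWL1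
  have hθ11 : θ1 < 1 := by rw [hθ1]; linarith
  have hWLN : ((W * L : ℕ) : ℝ) ≤ N := by
    have h1 : W * L ≤ ⌊(N : ℝ) ^ θ2⌋₊ := by
      refine le_trans ?_ l1
      exact Nat.mul_le_mul_left _ (by omega)
    have h2 : ((⌊(N : ℝ) ^ θ2⌋₊ : ℕ) : ℝ) ≤ (N : ℝ) ^ θ2 := Nat.floor_le (by positivity)
    have h3 : (N : ℝ) ^ θ2 ≤ N := by
      calc (N : ℝ) ^ θ2 ≤ (N : ℝ) ^ (1 : ℝ) := Real.rpow_le_rpow_of_exponent_le hN1 hθ2
        _ = N := Real.rpow_one _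
    have h4 : ((W * L : ℕ) : ℝ) ≤ ((⌊(N : ℝ) ^ θ2⌋₊ : ℕ) : ℝ) := by exact_mod_cast h1
    linarith
  obtain ⟨a, d, hd1, hd2, had⟩ := hB (FF F W t) (W * M + b) (W * L)
    (A.image (fun K => W * K + b)) (Pool.Agent.Y677.RSZ.Sys.mono (hS F hFs b hb) (by omega)) l3
    (by
      intro n hn
      refine ⟨?_, ?_⟩
      · unfold FF
        rw [Finset.prod_ne_zero_iff]
        intro i _
        have h1 := (hval _ (hwin n hn i)).1
        rwa [Nat.cast_add] at h1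
      · have h2 : ((FF F W t n).natAbs : ℝ) ≤ (((W * L : ℕ) : ℝ)) ^ (g' + E) := by
          have h3 : ((FF F W t n).natAbs : ℝ) = ∏ i, ((F ((n : ℤ) + ((W * t i : ℕ) : ℤ))).natAbs : ℝ) := by
            unfold FF
            rw [← Nat.cast_prod]
            congr 1
            exact map_prod Int.natAbsHom _ _
          rw [h3]
          calc ∏ i, ((F ((n : ℤ) + ((W * t i : ℕ) : ℤ))).natAbs : ℝ) ≤ ∏ _i : Fin (2 ^ k), (N : ℝ) ^ (D : ℝ) := by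
                apply prod_le_prod (fun _ _ => Nat.cast_nonneg _)
                intro i _
                have h1 := (hval _ (hwin n hn i)).2.1
                rwa [Nat.cast_add] at h1
            _ = (N : ℝ) ^ (D * 2 ^ k : ℝ) := by
                rw [prod_const, card_univ, Fintype.card_fin, ← Real.rpow_natCast, ← Real.rpow_mul hN0.le]
                push_cast
                rfl
            _ ≤ (N : ℝ) ^ (θ1 * E) := by
                apply Real.rpow_le_rpow_of_exponent_le hN1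
                rw [div_le_iff₀ hθ10] at hE
                linarith
            _ = ((N : ℝ) ^ θ1) ^ E := by rw [Real.rpow_mul hN0.le, Real.rpow_natCast]
            _ ≤ (((W * L : ℕ) : ℝ)) ^ E := pow_le_pow_left₀ (by positivity) hWL E
            _ ≤ _ := pow_le_pow_right₀ hWLr (by omega)
        have h4 : (FF F W t n).natAbs ≤ (W * L) ^ (g' + E) := by exact_mod_cast h2
        rw [Int.abs_eq_natAbs]
        exact_mod_cast h4)
    (by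
      intro x hx
      rw [mem_image] at hx
      obtain ⟨K, hK, rfl⟩ := hx
      have h1 := (hA2 K hK).1
      rw [mem_Ioc] at h1 ⊢
      have h2 : W * (M + 1) ≤ W * K := Nat.mul_le_mul_left _ (by omega)
      have h3 : W * K ≤ W * (M + L) := Nat.mul_le_mul_left _ h1.2
      have h5 : W * (M + L) = W * M + W * L := by ring
      have h7 : W * (M + 1) = W * M + W := by ring
      constructor <;> omega)
    (by
      intro x hx p hp hpH hdvd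
      rw [mem_image] at hx
      obtain ⟨K, hK, rfl⟩ := hx
      obtain ⟨i, hi⟩ := (FF_dvd F W b t p hp K).1 hdvd
      refine (hA2 K hK).2.1 p hp ?_ i hi
      refine hpH.trans_lt ?_
      calc ((W * L : ℕ) : ℝ) ^ (ε₁ / 2) ≤ (N : ℝ) ^ (ε₁ / 2) :=
            Real.rpow_le_rpow (by positivity) hWLN (by positivity)
        _ < (N : ℝ) ^ ε₁ := Real.rpow_lt_rpow_of_exponent_lt (by linarith) (by linarith))
    (by
      rw [card_image_of_injective _ (fun K K' hKK => by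
        have h1 : W * K + b = W * K' + b := hKK
        have h2 : W * K = W * K' := by omega
        exact Nat.eq_of_mul_eq_mul_left hW0 h2)]
      refine le_trans ?_ hA1
      have hzWL : z ≤ W * L := by
        have h1 : (z : ℝ) ≤ ((W * L : ℕ) : ℝ) := by
          refine hz1.le.trans (le_trans ?_ hWL)
          exact Real.rpow_le_rpow_of_exponent_le hN1 (by linarith)
        exact_mod_cast h1
      have h1 := FF_V F g hFs W b z (W * L) t hzWL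
      calc κ * ((W * L : ℕ) * V (FF F W t) 1 (W * L)) ≤
          κ * ((W * L : ℕ) * Vp F W b z t) := by gcongr
        _ = c / (2 * 2 ^ 2 ^ k) * (L * Vp F W b z t) := by
            rw [hκ]
            push_cast
            field_simp)
  have hpt : ∀ j < l, ∃ K ∈ A, W * K + b = a + j * d := by
    intro j hj
    have h1 := had j hj
    rw [mem_image] at h1
    obtain ⟨K, hK, h2⟩ := h1
    exact ⟨K, hK, h2⟩
  have hra : r + M₀ < a := by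
    obtain ⟨K0, hK0, hK0a⟩ := hpt 0 (by omega)
    rw [zero_mul, add_zero] at hK0a
    have h1 := (hA2 K0 hK0).1
    rw [mem_Ioc] at h1
    have h2 : W * (M + 1) ≤ W * K0 := Nat.mul_le_mul_left _ (by omega)
    have h7 : W * (M + 1) = W * M + W := by ring
    omega
  refine ⟨Hs.image (fun i => W * t i + r), ?_, ?_, a - r, d, hd1, ?_, ?_⟩
  · intro h hh
    rw [mem_image] at hh
    obtain ⟨i, _, rfl⟩ := hh
    exact hmem i
  · rw [card_image_of_injective _ (fun i j hij => by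
      have h1 : W * t i + r = W * t j + r := hij
      have h2 : W * t i = W * t j := by omega
      exact ht (Nat.eq_of_mul_eq_mul_left hW0 h2))]
    exact hHs
  · refine hd2.trans ?_
    apply pow_le_pow_left₀ (Real.log_nonneg hWLr)
    exact Real.log_le_log (by linarith) hWLN
  · intro j hj
    refine ⟨by omega, fun h hh => ?_⟩
    rw [mem_image] at hh
    obtain ⟨i, hi, rfl⟩ := hh
    obtain ⟨K, hK, hKa⟩ := hpt j hj
    have e : a - r + j * d + (W * t i + r) = W * (K + t i) + b := by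
      have h1 := pt_eq W b r K (t i) (a + j * d) hKa (by omega)
      omega
    rw [e]
    obtain ⟨hK1', hK2', hK3'⟩ := hA2 K hK
    obtain ⟨hw, hsq⟩ := hK3' i hi
    have hin := hpts K hK1' i
    obtain ⟨-, -, hG1, hG2⟩ := hval _ hin
    have halm := almost N (by omega) (τ / 4) υ (8 / 9) B r0 (by rw [hυ]; linarith)
      hυ0 (by rw [hυ]; linarith) (by norm_num)
      hr0 (G ((W * (K + t i) + b : ℕ) : ℤ)).natAbs
      (Int.natAbs_ne_zero.2 hG1) hG2 hw (fun q hq hqd => hsq q hq (Int.natCast_dvd.2 hqd))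
    refine ⟨(mem_Ioc.1 hin).2, halm.1, fun p hp hpd => halm.2 p hp (Int.natCast_dvd.1 hpd),
      fun p hp hpd => ?_⟩
    by_contra hcon
    push Not at hcon
    refine hK2' p hp (hcon.trans_le ?_) i hpd
    exact Real.rpow_le_rpow_of_exponent_le hN1 (by nlinarith)

end Pool.Agent.K3h21.LN
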