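import Pool.Agent.K3h21.LN.FinU
import Pool.Agent.Y882.SI.Quad

set_option autoImplicit false
set_option linter.unusedSectionVars false
set_option linter.unusedVariables false

/-! Clusters of almost primes in short segments of arithmetic progressions. -/

namespace Pool.Agent.K3h21.LN

open Finset Filter
open Pool.Agent.Y677.RSZ (rt Sys)
open Pool.Agent.W23.DC
open Pool.Agent.W378.DC.TMP

/-- the linear form -/
def lin (q c : ℕ) (n : ℤ) : ℤ := q * n + c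

theorem lin_rt (q c : ℕ) (h : Nat.Coprime c q) (p : ℕ) (hp : p.Prime) :
    rt (lin q c) p = if p ∣ q then 0 else 1 := by
  classical
  unfold rt
  split_ifs with hpq
  · rw [card_eq_zero, filter_eq_empty_iff]
    intro r _ hd
    unfold lin at hd
    have h1 : (p : ℤ) ∣ (q : ℤ) * (r : ℤ) := Dvd.dvd.mul_right (Int.natCast_dvd_natCast.2 hpq) _
    have h2 : (p : ℤ) ∣ (c : ℤ) := (dvd_add_right h1).1 hd
    have h3 : p ∣ c := Int.natCast_dvd_natCast.1 h2
    have h4 := Nat.dvd_gcd h3 hpq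
    rw [h] at h4
    exact hp.one_lt.ne' (Nat.dvd_one.1 h4)
  · have hpi : Prime (p : ℤ) := Nat.prime_iff_prime_int.1 hp
    have hcop : IsCoprime (q : ℤ) (p : ℤ) := by
      rw [Nat.isCoprime_iff_coprime]
      exact ((Nat.Prime.coprime_iff_not_dvd hp).2 hpq).symm
    obtain ⟨u, v, huv⟩ := hcop
    -- the root
    have hroot : ∀ r : ℤ, (p : ℤ) ∣ lin q c r ↔ (p : ℤ) ∣ r + u * c := by
      intro r
      unfold lin
      constructor
      · intro hd
        have h1 : r + u * c = u * (q * r + c) + v * r * p := by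
          linear_combination -r * huv
        rw [h1]
        exact dvd_add (hd.mul_left _) (dvd_mul_left _ _)
      · intro hd
        have h1 : (q : ℤ) * r + c = q * (r + u * c) + v * c * p := by
          linear_combination -(c : ℤ) * huv
        rw [h1]
        exact dvd_add (hd.mul_left _) (dvd_mul_left _ _)
    have hp0 : (p : ℤ) ≠ 0 := by exact_mod_cast hp.ne_zero
    rw [card_eq_one]
    refine ⟨((-(u * c)) % (p : ℤ)).toNat, ?_⟩
    have h5 : 0 ≤ (-(u * c)) % (p : ℤ) := Int.emod_nonneg _ hp0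
    have h6 : (-(u * c)) % (p : ℤ) < p := Int.emod_lt_of_pos _ (by exact_mod_cast hp.pos)
    have h7 : ((((-(u * c)) % (p : ℤ)).toNat : ℕ) : ℤ) = (-(u * c)) % (p : ℤ) := Int.toNat_of_nonneg h5
    have h9 : (p : ℤ) ∣ (-(u * c)) % (p : ℤ) + u * c := by
      have h9 := Int.emod_add_mul_ediv (-(u * c)) p
      have h10 : (-(u * c)) % (p : ℤ) + u * c = - ((p : ℤ) * (-(u * c) / p)) := by linarith
      rw [h10]
      exact (dvd_mul_right _ _).neg_right
    have h12 : ((-(u * c)) % (p : ℤ)).toNat < p := by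
      have : ((((-(u * c)) % (p : ℤ)).toNat : ℕ) : ℤ) < p := by rw [h7]; exact h6
      exact_mod_cast this
    ext r
    rw [mem_filter, mem_range, mem_singleton, hroot]
    constructor
    · rintro ⟨h8, h10⟩
      have h11 : (((-(u * c)) % (p : ℤ)).toNat : ℤ) ≡ (r : ℤ) [ZMOD (p : ℤ)] := by
        rw [Int.modEq_iff_dvd, h7]
        have h13 := dvd_sub h10 h9
        have e : (r : ℤ) + u * c - ((-(u * c)) % (p : ℤ) + u * c) = r - (-(u * c)) % (p : ℤ) := by ring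
        rwa [e] at h13
      have h14 := (Int.natCast_modEq_iff).1 h11
      exact (Nat.ModEq.eq_of_lt_of_lt h14 h12 h8).symm
    · intro h8
      rw [h8]
      exact ⟨h12, by rw [h7]; exact h9⟩

theorem lin_sys (q c : ℕ) (h : Nat.Coprime c q) : Sys 1 (lin q c) := by
  refine ⟨fun p hp n => ?_, fun p hp => ?_, ⟨fun h => h, fun k hk => ?_⟩⟩
  · unfold lin
    have e : (q : ℤ) * (n + p) + c - (q * n + c) = q * p := by ring
    rw [e]
    exact dvd_mul_left _ _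
  · rw [lin_rt q c h p hp]
    have := hp.two_le
    split_ifs <;> omega
  · refine ⟨hk, by rw [pow_one], fun p hp n h1 h2 => ?_⟩
    by_cases hpq : p ∣ q
    · exfalso
      unfold lin at h1
      have h3 : (p : ℤ) ∣ (q : ℤ) * n := Dvd.dvd.mul_right (Int.natCast_dvd_natCast.2 hpq) _
      have h4 : (p : ℤ) ∣ (c : ℤ) := (dvd_add_right h3).1 h1
      have h5 : p ∣ c := Int.natCast_dvd_natCast.1 h4
      have h6 := Nat.dvd_gcd h5 hpq
      rw [h] at h6
      exact hp.one_lt.ne' (Nat.dvd_one.1 h6)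
    · have h3 := dvd_sub h2 h1
      have e : lin q c (n + k) - lin q c n = q * k := by unfold lin; ring
      rw [e] at h3
      have h4 : p ∣ q * k := by exact_mod_cast h3
      exact ((Nat.Prime.dvd_mul hp).1 h4).resolve_left hpq

/-- the densities are regular -/
theorem mer_lin (A ε₁ υ η : ℝ) (hε : 0 < ε₁) (hυ : υ ≤ 1) (hη : 0 < η) : ∃ Y0 : ℕ, ∀ Y : ℕ,
    Y0 ≤ Y → ∀ q c : ℕ, 0 < q → (q : ℝ) ≤ (Y : ℝ) ^ A → Nat.Coprime c q →
      Mer (pr Y ε₁ υ) (tt Y) (fun p => (rt (lin q c) p : ℝ) / p) ε₁ υ η := by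
  classical
  obtain ⟨N1, hN1⟩ := Pool.Agent.W378.DC.MP ε₁ (η / 3) hε (by linarith)
  have ev1 : ∀ᶠ Y : ℕ in atTop, (3 / η + 3 * (2 * |A| / ε₁) / η) + 5 ≤ (Y : ℝ) ^ ε₁ :=
    ((tendsto_rpow_atTop hε).comp tendsto_natCast_atTop_atTop).eventually_ge_atTop _
  have ev3 : ∀ᶠ Y : ℕ in atTop, 2 ≤ (Y : ℝ) ^ (ε₁ / 2) :=
    ((tendsto_rpow_atTop (by linarith)).comp tendsto_natCast_atTop_atTop).eventually_ge_atTop _
  obtain ⟨Y1, hY1⟩ := eventually_atTop.1 (ev1.and (ev3.and (eventually_ge_atTop 3)))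
  refine ⟨max N1 Y1, fun Y hY q c hq0 hqA hcq => ?_⟩
  obtain ⟨e1, e3, e4⟩ := hY1 Y ((le_max_right _ _).trans hY)
  have hYN1 : N1 ≤ Y := (le_max_left _ _).trans hY
  have hYr : (3 : ℝ) ≤ Y := by exact_mod_cast e4
  have hY0 : (0 : ℝ) < Y := by linarith
  have hY1r : (1 : ℝ) < Y := by linarith
  intro u v hu huv hv
  have hv1 : v ≤ 1 := hv.trans hυ
  have hset : (pr Y ε₁ υ).filter (fun p => u ≤ tt Y p ∧ tt Y p < v) = pr Y u v := by
    ext p
    unfold pr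
    rw [mem_filter, mem_filter, mem_filter]
    constructor
    · rintro ⟨⟨h1, h2, h3, h4⟩, h5, h6⟩
      exact ⟨h1, h2, h5, h6⟩
    · rintro ⟨h1, h2, h5, h6⟩
      exact ⟨⟨h1, h2, hu.trans h5, h6.trans_le hv⟩, h5, h6⟩
  rw [hset]
  have m1 := hN1 Y hYN1 u v hu huv hv1
  rw [pr_eq (by omega) hv1] at m1 ⊢
  have hmono : (Y : ℝ) ^ u ≤ (Y : ℝ) ^ v := Real.rpow_le_rpow_of_exponent_le hY1r.le huv
  have hu' : (Y : ℝ) ^ ε₁ ≤ (Y : ℝ) ^ u := Real.rpow_le_rpow_of_exponent_le hY1r.le hu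
  have hAB : ⌈(Y : ℝ) ^ u⌉₊ - 1 ≤ ⌈(Y : ℝ) ^ v⌉₊ - 1 := Nat.sub_le_sub_right (Nat.ceil_mono hmono) 1
  have hAl : (Y : ℝ) ^ ε₁ - 1 ≤ ((⌈(Y : ℝ) ^ u⌉₊ - 1 : ℕ) : ℝ) := by
    have h1 := Nat.le_ceil ((Y : ℝ) ^ u)
    have h2 : 1 ≤ ⌈(Y : ℝ) ^ u⌉₊ := Nat.ceil_pos.2 (by positivity)
    rw [Nat.cast_sub h2]
    push_cast
    linarith
  set a := ⌈(Y : ℝ) ^ u⌉₊ - 1 with ha
  set b := ⌈(Y : ℝ) ^ v⌉₊ - 1 with hb
  have hpos1 : 0 ≤ 3 / η := by positivity
  have hpos2 : 0 ≤ 3 * (2 * |A| / ε₁) / η := by positivity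
  have ha2r : (2 : ℝ) ≤ a := by linarith
  have ha2 : 2 ≤ a := by exact_mod_cast ha2r
  have m2 := shift_prime (A := a) (B := b) (by omega) hAB
  rw [Finset.sum_sub_distrib] at m2
  -- the primes dividing q
  set S := ((Ioc a b).filter Nat.Prime).filter (fun p => p ∣ q) with hS
  have hsum : ∑ p ∈ (Ioc a b).filter Nat.Prime, (rt (lin q c) p : ℝ) / p =
      ∑ p ∈ (Ioc a b).filter Nat.Prime, 1 / (p : ℝ) - ∑ p ∈ S, 1 / (p : ℝ) := by
    rw [hS, sum_filter (fun p => p ∣ q), ← sum_sub_distrib]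
    apply sum_congr rfl
    intro p hp
    rw [lin_rt q c hcq p (mem_filter.1 hp).2]
    split_ifs <;> simp
  rw [hsum]
  have hcard : (S.card : ℝ) ≤ 2 * |A| / ε₁ := by
    have h1 : (∏ p ∈ S, p) ∣ q := by
      apply Finset.prod_dvd_of_isRelPrime
      · intro x hx y hy hxy
        rw [mem_coe, hS, mem_filter, mem_filter] at hx hy
        exact Nat.coprime_iff_isRelPrime.1 ((Nat.coprime_primes hx.1.2 hy.1.2).2 hxy)
      · intro p hp
        rw [hS, mem_filter] at hp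
        exact hp.2
    have h2 : ∏ p ∈ S, p ≤ q := Nat.le_of_dvd hq0 h1
    have h3 : ((Y : ℝ) ^ (ε₁ / 2)) ^ S.card ≤ ((∏ p ∈ S, p : ℕ) : ℝ) := by
      push_cast
      rw [← prod_const]
      apply prod_le_prod (fun _ _ => by positivity)
      intro p hp
      rw [hS, mem_filter, mem_filter, mem_Ioc] at hp
      have h4 : (a : ℝ) ≤ p := by exact_mod_cast hp.1.1.1.le
      have h5 : (Y : ℝ) ^ ε₁ = (Y : ℝ) ^ (ε₁ / 2) * (Y : ℝ) ^ (ε₁ / 2) := by
        rw [← Real.rpow_add hY0]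
        congr 1
        ring
      nlinarith
    have h4 : ((Y : ℝ) ^ (ε₁ / 2)) ^ S.card ≤ (Y : ℝ) ^ A := by
      refine h3.trans (le_trans ?_ hqA)
      exact_mod_cast h2
    rw [← Real.rpow_natCast, ← Real.rpow_mul hY0.le, Real.rpow_le_rpow_left_iff hY1r] at h4
    rw [le_div_iff₀ hε]
    have := le_abs_self A
    linarith
  have m4 : ∑ p ∈ S, 1 / (p : ℝ) ≤ η / 3 := by
    have h1 : ∑ p ∈ S, 1 / (p : ℝ) ≤ S.card * (1 / (a : ℝ)) := by
      rw [← nsmul_eq_mul]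
      apply sum_le_card_nsmul
      intro p hp
      rw [hS, mem_filter, mem_filter, mem_Ioc] at hp
      have h4 : (a : ℝ) ≤ p := by exact_mod_cast hp.1.1.1.le
      exact one_div_le_one_div_of_le (by linarith) h4
    refine h1.trans ?_
    rw [mul_one_div, div_le_iff₀ (by linarith)]
    have h2 : 3 * (2 * |A| / ε₁) / η ≤ a := by linarith
    rw [div_le_iff₀ hη] at h2
    linarith
  have m4' : 0 ≤ ∑ p ∈ S, 1 / (p : ℝ) := sum_nonneg fun p _ => by positivity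
  have m5 : 1 / (a : ℝ) ≤ η / 3 := by
    rw [div_le_iff₀ (by linarith)]
    have h2 : 3 / η ≤ a := by linarith
    rw [div_le_iff₀ hη] at h2
    linarith
  obtain ⟨a1, a2⟩ := abs_le.1 m1
  rw [abs_le]
  constructor <;> linarith [m2.1, m2.2]

/-- squares in progressions -/
theorem lin_sq (q c : ℕ) (h : Nat.Coprime c q) (p : ℕ) (hp : p.Prime) (N H : ℕ) :
    ((((Icc 1 H).filter (fun j : ℕ => ((p ^ 2 : ℕ) : ℤ) ∣ lin q c ((N + j : ℕ) : ℤ))).card : ℕ) : ℝ) ≤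
        (1 : ℕ) * (H * (1 / (p : ℝ) ^ 2) + 1) := by
  classical
  have hp0 : 0 < p ^ 2 := pow_pos hp.pos 2
  have hmod : ∀ i ∈ (Icc 1 H).filter (fun j : ℕ => ((p ^ 2 : ℕ) : ℤ) ∣ lin q c ((N + j : ℕ) : ℤ)),
      ∀ j ∈ (Icc 1 H).filter (fun j : ℕ => ((p ^ 2 : ℕ) : ℤ) ∣ lin q c ((N + j : ℕ) : ℤ)),
      i % (p ^ 2) = j % (p ^ 2) := by
    intro i hi j hj
    rw [mem_filter] at hi hj
    by_cases hpq : p ∣ q
    · exfalso
      have h1 : (p : ℤ) ∣ lin q c ((N + i : ℕ) : ℤ) :=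
        dvd_trans (by exact_mod_cast dvd_pow_self p (by norm_num)) hi.2
      unfold lin at h1
      have h3 : (p : ℤ) ∣ (q : ℤ) * ((N + i : ℕ) : ℤ) :=
        Dvd.dvd.mul_right (Int.natCast_dvd_natCast.2 hpq) _
      have h4 : (p : ℤ) ∣ (c : ℤ) := (dvd_add_right h3).1 h1
      have h5 : p ∣ c := Int.natCast_dvd_natCast.1 h4
      have h6 := Nat.dvd_gcd h5 hpq
      rw [h] at h6
      exact hp.one_lt.ne' (Nat.dvd_one.1 h6)
    · have h3 := dvd_sub hj.2 hi.2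
      have e : lin q c ((N + j : ℕ) : ℤ) - lin q c ((N + i : ℕ) : ℤ) = q * ((j : ℤ) - i) := by
        unfold lin
        push_cast
        ring
      rw [e] at h3
      have hcop : IsCoprime ((p ^ 2 : ℕ) : ℤ) (q : ℤ) := by
        rw [Nat.isCoprime_iff_coprime]
        exact Nat.Coprime.pow_left 2 ((Nat.Prime.coprime_iff_not_dvd hp).2 hpq)
      have h4 := hcop.dvd_of_dvd_mul_left h3
      exact (Nat.modEq_iff_dvd).2 h4
  rcases ((Icc 1 H).filter (fun j : ℕ => ((p ^ 2 : ℕ) : ℤ) ∣ lin q c ((N + j : ℕ) : ℤ))).eq_empty_or_nonempty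
    with h0 | ⟨i₀, hi₀⟩
  · rw [h0, card_empty]
    push_cast
    positivity
  · have h1 : (Icc 1 H).filter (fun j : ℕ => ((p ^ 2 : ℕ) : ℤ) ∣ lin q c ((N + j : ℕ) : ℤ)) ⊆
        (Icc 1 H).filter (fun j : ℕ => j ≡ i₀ [MOD p ^ 2]) := by
      intro j hj
      rw [mem_filter]
      exact ⟨(mem_filter.1 hj).1, hmod j hj i₀ hi₀⟩
    have h2 : ((Icc 1 H).filter (fun j : ℕ => j ≡ i₀ [MOD p ^ 2])).card ≤ H / p ^ 2 + 1 := by
      rw [← card_range (H / p ^ 2 + 1)]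
      apply card_le_card_of_injOn (fun j => j / p ^ 2)
      · intro j hj
        rw [mem_coe, mem_filter, mem_Icc] at hj
        rw [mem_coe, mem_range]
        exact Nat.lt_succ_of_le (Nat.div_le_div_right hj.1.2)
      · intro j hj k hk hjk
        rw [mem_coe, mem_filter] at hj hk
        have e1 := Nat.div_add_mod j (p ^ 2)
        have e2 := Nat.div_add_mod k (p ^ 2)
        have e3 : j % p ^ 2 = k % p ^ 2 := hj.2.trans hk.2.symm
        simp only at hjk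
        rw [← e1, ← e2, hjk, e3]
    have h3 : (((Icc 1 H).filter (fun j : ℕ => ((p ^ 2 : ℕ) : ℤ) ∣ lin q c ((N + j : ℕ) : ℤ))).card : ℝ) ≤
        ((H / p ^ 2 : ℕ) : ℝ) + 1 := by exact_mod_cast (card_le_card h1).trans h2
    have h4 : ((H / p ^ 2 : ℕ) : ℝ) ≤ (H : ℝ) / ((p ^ 2 : ℕ) : ℝ) := Nat.cast_div_le
    rw [Nat.cast_one, one_mul, mul_one_div]
    rw [Nat.cast_pow] at h4
    linarith

end Pool.Agent.K3h21.LN
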