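import Pool.Agent.K3h21.LN.Lin

set_option autoImplicit false
set_option linter.unusedSectionVars false
set_option linter.unusedVariables false

/-! Clusters of almost primes in short segments of arithmetic progressions: the theorem. -/

namespace Pool.Agent.K3h21.LN

open Finset Filter
open Pool.Agent.Y677.RSZ (rt Sys)
open Pool.Agent.W23.DC

/-- **Clusters of almost primes in short segments of arithmetic progressions.** -/
theorem clusters (r : ℕ) (hr : 2 ≤ r) (θ : ℝ) (hθ : 25 / (24 * (r : ℝ) - 3) < θ) (hθ1 : θ ≤ 1) (m : ℕ) :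
    ∃ K₀ : ℕ, ∀ S : Finset ℕ, K₀ ≤ S.card → ∀ l : ℕ,
      ∃ B : ℕ, ∀ᶠ Y : ℕ in atTop, ∀ q c M L : ℕ, 0 < q → Nat.Coprime c q → (Y : ℝ) ^ θ ≤ L →
      q * (M + L) + c ≤ Y →
      ∃ H ⊆ S, H.card = m ∧ ∃ n d : ℕ, 1 ≤ d ∧ (d : ℝ) ≤ Real.log Y ^ B ∧ ∀ j < l, M < n + j * d ∧
        ∀ h ∈ H, n + j * d + h ≤ M + L ∧
          (q * (n + j * d + h) + c).primeFactorsList.length ≤ r ∧
          ∀ p : ℕ, p.Prime → p ∣ q * (n + j * d + h) + c → (Y : ℝ) ^ (1 / (4 * r : ℝ)) ≤ p := by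
  classical
  have hrr : (2 : ℝ) ≤ r := by exact_mod_cast hr
  have hden : 0 < 24 * (r : ℝ) - 3 := by linarith
  obtain ⟨τ, hτ1, hτ2⟩ := exists_between hθ
  have hτ0 : 0 < τ := lt_trans (by positivity) hτ1
  have hτr : 25 < τ * (24 * (r : ℝ) - 3) := by rwa [div_lt_iff₀ hden] at hτ1
  obtain ⟨K₀, hK⟩ := finU 1 1 le_rfl
    (fun Y F G => F = G ∧ ∃ q c : ℕ, 0 < q ∧ (q : ℝ) ≤ (Y : ℝ) ^ (1 : ℝ) ∧ Nat.Coprime c q ∧
      G = lin q c)
    (by
      rintro Y F G ⟨rfl, q, c, h1, h2, h3, rfl⟩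
      exact ⟨lin_sys q c h3, lin_sys q c h3, fun p _ n h => h⟩)
    (by
      intro ε₁ υ η h1 h2 h3
      obtain ⟨Y0, hY0⟩ := mer_lin 1 ε₁ υ η h1 h2 h3
      refine ⟨Y0, ?_⟩
      rintro Y hY F G ⟨rfl, q, c, h1, h2, h3, rfl⟩
      exact hY0 Y hY q c h1 h2 h3)
    1 0
    (by
      rintro Y F G ⟨rfl, q, c, h1, h2, h3, rfl⟩ p hp _ N H
      exact lin_sq q c h3 p hp N H)
    r τ θ 1 hτ0 hτ2 hθ1 (by norm_num) (by
      have h1 : 1 / (24 / 25 * τ) ≤ (r : ℝ) - 1 / 8 := by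
        rw [div_le_iff₀ (by positivity)]
        linarith
      have h2 : (1 : ℝ) / (8 / 9) = 9 / 8 := by norm_num
      rw [h2]
      linarith) m
  refine ⟨K₀, fun S hS l => ?_⟩
  obtain ⟨δ, hδ, hl⟩ := hK S hS
  obtain ⟨B, hB⟩ := hl (l + 2) (by omega)
  refine ⟨B, ?_⟩
  filter_upwards [hB, eventually_ge_atTop 3] with Y hY hY3 q c M L hq hcq hL hYb
  have hYr : (3 : ℝ) ≤ Y := by exact_mod_cast hY3
  have hY1 : (1 : ℝ) ≤ Y := by linarith
  have hval : ∀ n ∈ Ioc M (M + L), lin q c (n : ℤ) = ((q * n + c : ℕ) : ℤ) ∧ 0 < q * n + c ∧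
      q * n + c ≤ Y := by
    intro n hn
    rw [mem_Ioc] at hn
    refine ⟨by unfold lin; push_cast; rfl, ?_, ?_⟩
    · have : 0 < q * n := Nat.mul_pos hq (by omega)
      omega
    · have : q * n ≤ q * (M + L) := Nat.mul_le_mul_left _ hn.2
      omega
  obtain ⟨H, hH, hHc, n, d, h1, h2, h3⟩ := hY (lin q c) (lin q c) ⟨rfl, q, c, hq, by
    rw [Real.rpow_one]
    have hL1 : 1 ≤ L := by
      have : (1 : ℝ) ≤ L := le_trans (Real.one_le_rpow hY1 (by linarith)) hL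
      exact_mod_cast this
    have : q * 1 ≤ q * (M + L) := Nat.mul_le_mul_left _ (by omega)
    have : q ≤ Y := by omega
    exact_mod_cast this, hcq, rfl⟩ M L hL (by
      intro n hn
      obtain ⟨a1, a2, a3⟩ := hval n hn
      have a4 : ((lin q c (n : ℤ)).natAbs : ℝ) ≤ (Y : ℝ) ^ (1 : ℝ) := by
        rw [a1, Int.natAbs_natCast, Real.rpow_one]
        exact_mod_cast a3
      have a5 : lin q c (n : ℤ) ≠ 0 := by
        rw [a1]
        exact_mod_cast a2.ne'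
      exact ⟨a5, by exact_mod_cast a4, a5, a4⟩)
  refine ⟨H, hH, hHc, n, d, h1, h2, fun j hj => ⟨(h3 j (by omega)).1, fun h hh => ?_⟩⟩
  obtain ⟨b1, b2, b3, -⟩ := (h3 j (by omega)).2 h hh
  have b0 := (h3 j (by omega)).1
  obtain ⟨a1, a2, a3⟩ := hval (n + j * d + h) (mem_Ioc.2 ⟨by omega, b1⟩)
  rw [a1] at b2 b3
  rw [Int.natAbs_natCast] at b2
  refine ⟨b1, b2, fun p hp hpd => ?_⟩
  refine le_trans ?_ (b3 p hp (by exact_mod_cast hpd))
  apply Real.rpow_le_rpow_of_exponent_le hY1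
  rw [div_le_iff₀ (by positivity)]
  nlinarith

end Pool.Agent.K3h21.LN
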