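import Pool.Agent.K3h21.LN.Main

set_option autoImplicit false

/-! Clusters of almost primes in short intervals and residue classes. -/

namespace Pool.Agent.K3h21.LN

open Finset Filter

/-- **Clusters of almost primes in short intervals and in all residue classes to small moduli.** -/
theorem short (r : ℕ) (hr : 2 ≤ r) (θ σ : ℝ) (hσ : 0 ≤ σ) (hθ : 25 / (24 * (r : ℝ) - 3) + σ < θ)
    (hθ1 : θ ≤ 1) (m : ℕ) :
    ∃ K : ℕ, ∀ S : Finset ℕ, K ≤ S.card → ∀ l : ℕ, ∃ B : ℕ, ∀ᶠ x : ℝ in atTop,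
      ∀ q c : ℕ, (q : ℝ) ≤ x ^ σ → c < q → Nat.Coprime c q →
      ∃ H ⊆ S, H.card = m ∧ ∃ u d : ℕ, 1 ≤ d ∧ (d : ℝ) ≤ Real.log x ^ B ∧ ∀ j < l, ∀ h ∈ H,
        x < ((q * (u + j * d + h) + c : ℕ) : ℝ) ∧ ((q * (u + j * d + h) + c : ℕ) : ℝ) < x + x ^ θ ∧
        (q * (u + j * d + h) + c).primeFactorsList.length ≤ r ∧
        ∀ p : ℕ, p.Prime → p ∣ q * (u + j * d + h) + c → x ^ (1 / (4 * r : ℝ)) ≤ p := by
  have hrr : (2 : ℝ) ≤ r := by exact_mod_cast hr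
  have hden : 0 < 24 * (r : ℝ) - 3 := by linarith
  obtain ⟨θ', h1, h2⟩ := exists_between (show 25 / (24 * (r : ℝ) - 3) < θ - σ by linarith)
  have hθ'0 : 0 < θ' := lt_trans (by positivity) h1
  obtain ⟨K, hK⟩ := Pool.Agent.K3h21.LN.clusters r hr θ' h1 (by linarith) m
  refine ⟨K, fun S hS l => ?_⟩
  obtain ⟨B, hB⟩ := hK S hS (l + 1)
  refine ⟨B + 1, ?_⟩
  have hT : Tendsto (fun x : ℝ => 3 * ⌊x⌋₊) atTop atTop :=
    (tendsto_nat_floor_atTop).const_mul_atTop' (by norm_num)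
  have e1 := hT.eventually hB
  have e2 : ∀ᶠ x : ℝ in atTop, (2 : ℝ) ^ B ≤ Real.log x :=
    Real.tendsto_log_atTop.eventually_ge_atTop _
  have e3 : ∀ᶠ x : ℝ in atTop, (8 : ℝ) ≤ x ^ (θ - σ - θ') :=
    (tendsto_rpow_atTop (by linarith)).eventually_ge_atTop _
  filter_upwards [e1, e2, e3, eventually_ge_atTop 4] with x hx hlog hpow hx4 q c hq hcq hcop
  have hx0 : (0 : ℝ) < x := by linarith
  have hx1 : (1 : ℝ) ≤ x := by linarith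
  have hq0 : 0 < q := by omega
  have hq0r : (0 : ℝ) < q := by exact_mod_cast hq0
  have hq1r : (1 : ℝ) ≤ q := by exact_mod_cast hq0
  have hcr : (c : ℝ) + 1 ≤ q := by exact_mod_cast hcq
  have hfl1 : (⌊x⌋₊ : ℝ) ≤ x := Nat.floor_le hx0.le
  have hfl2 : x < ⌊x⌋₊ + 1 := Nat.lt_floor_add_one x
  have hfl3 : 4 ≤ ⌊x⌋₊ := Nat.le_floor (by exact_mod_cast hx4)
  have hfl3r : (4 : ℝ) ≤ ⌊x⌋₊ := by exact_mod_cast hfl3
  have hxθ : x ^ θ = x ^ σ * x ^ θ' * x ^ (θ - σ - θ') := by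
    rw [← Real.rpow_add hx0, ← Real.rpow_add hx0]
    congr 1
    ring
  have hxθ' : (1 : ℝ) ≤ x ^ θ' := Real.one_le_rpow (by linarith) hθ'0.le
  have hxσ : (1 : ℝ) ≤ x ^ σ := Real.one_le_rpow (by linarith) hσ
  have hxθx : x ^ θ ≤ x := by
    calc x ^ θ ≤ x ^ (1 : ℝ) := Real.rpow_le_rpow_of_exponent_le (by linarith) hθ1
      _ = x := Real.rpow_one _
  have hge : 8 * (q * x ^ θ') ≤ x ^ θ := by
    rw [hxθ]
    have h3 : (q : ℝ) * x ^ θ' ≤ x ^ σ * x ^ θ' := mul_le_mul_of_nonneg_right hq (by positivity)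
    have h4 : 0 ≤ x ^ σ * x ^ θ' := by positivity
    nlinarith
  -- the window
  obtain ⟨M, hM⟩ : ∃ M : ℕ, M = ⌊x⌋₊ / q := ⟨_, rfl⟩
  obtain ⟨L, hL⟩ : ∃ L : ℕ, L = ⌊x ^ θ / q⌋₊ - 3 := ⟨_, rfl⟩
  have hg1 : ((⌊x ^ θ / q⌋₊ : ℕ) : ℝ) ≤ x ^ θ / q := Nat.floor_le (by positivity)
  have hg2 : x ^ θ / q < ⌊x ^ θ / q⌋₊ + 1 := Nat.lt_floor_add_one _
  have hg3 : 8 * x ^ θ' ≤ x ^ θ / q := by
    rw [le_div_iff₀ hq0r]
    linarith
  have hg4 : 3 ≤ ⌊x ^ θ / q⌋₊ := Nat.le_floor (by push_cast; linarith)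
  have hLr : (L : ℝ) = ⌊x ^ θ / q⌋₊ - 3 := by
    rw [hL, Nat.cast_sub hg4]
    norm_num
  have hqL : (q : ℝ) * (L + 3) ≤ x ^ θ := by
    have h3 : (L : ℝ) + 3 ≤ x ^ θ / q := by linarith
    rw [le_div_iff₀ hq0r] at h3
    linarith
  have hM1 : q * M ≤ ⌊x⌋₊ := by rw [hM]; exact Nat.mul_div_le _ _
  have hM2 : ⌊x⌋₊ < q * (M + 1) := by rw [hM]; exact Nat.lt_mul_div_succ _ hq0
  have hM1r : (q : ℝ) * M ≤ ⌊x⌋₊ := by exact_mod_cast hM1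
  have hM2r : (⌊x⌋₊ : ℝ) + 1 ≤ q * (M + 1) := by exact_mod_cast hM2
  have hYle : ((3 * ⌊x⌋₊ : ℕ) : ℝ) ≤ 3 * x := by push_cast; linarith
  have hYge : x ≤ ((3 * ⌊x⌋₊ : ℕ) : ℝ) := by
    push_cast
    linarith
  have hYpow : ((3 * ⌊x⌋₊ : ℕ) : ℝ) ^ θ' ≤ 3 * x ^ θ' := by
    calc ((3 * ⌊x⌋₊ : ℕ) : ℝ) ^ θ' ≤ (3 * x) ^ θ' := Real.rpow_le_rpow (by positivity) hYle hθ'0.le
      _ = 3 ^ θ' * x ^ θ' := Real.mul_rpow (by norm_num) hx0.le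
      _ ≤ 3 * x ^ θ' := by
          apply mul_le_mul_of_nonneg_right _ (by positivity)
          calc (3 : ℝ) ^ θ' ≤ 3 ^ (1 : ℝ) :=
                Real.rpow_le_rpow_of_exponent_le (by norm_num) (by linarith)
            _ = 3 := Real.rpow_one _
  obtain ⟨H, hH, hHc, n, d, hd1, hd2, hall⟩ := hx q c (M + 1) L hq0 hcop (by linarith) (by
      have h5 : ((q * (M + 1 + L) + c : ℕ) : ℝ) ≤ ((3 * ⌊x⌋₊ : ℕ) : ℝ) := by
        push_cast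
        nlinarith
      exact_mod_cast h5)
  have hl0 : 0 ≤ Real.log x := Real.log_nonneg (by linarith)
  refine ⟨H, hH, hHc, n, d, hd1, ?_, fun j hj h hh => ?_⟩
  · have hlY : Real.log ((3 * ⌊x⌋₊ : ℕ) : ℝ) ≤ 2 * Real.log x := by
      calc Real.log ((3 * ⌊x⌋₊ : ℕ) : ℝ) ≤ Real.log (x * x) :=
            Real.log_le_log (by linarith) (by nlinarith)
        _ = 2 * Real.log x := by rw [Real.log_mul hx0.ne' hx0.ne']; ring
    calc (d : ℝ) ≤ Real.log ((3 * ⌊x⌋₊ : ℕ) : ℝ) ^ B := hd2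
      _ ≤ (2 * Real.log x) ^ B := pow_le_pow_left₀ (Real.log_nonneg (by linarith)) hlY B
      _ = 2 ^ B * Real.log x ^ B := mul_pow _ _ _
      _ ≤ Real.log x * Real.log x ^ B := by gcongr
      _ = Real.log x ^ (B + 1) := by rw [pow_succ]; ring
  · obtain ⟨hlow, hrest⟩ := hall j (by omega)
    obtain ⟨a1, a2, a3⟩ := hrest h hh
    have hk1 : M + 2 ≤ n + j * d + h := by omega
    have hk1r : (M : ℝ) + 2 ≤ ((n + j * d + h : ℕ) : ℝ) := by exact_mod_cast hk1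
    have hk2r : ((n + j * d + h : ℕ) : ℝ) ≤ M + 1 + L := by exact_mod_cast a1
    have e : ((q * (n + j * d + h) + c : ℕ) : ℝ) = q * ((n + j * d + h : ℕ) : ℝ) + c := by
      push_cast
      ring
    have hc0 : (0 : ℝ) ≤ c := Nat.cast_nonneg c
    refine ⟨?_, ?_, a2, fun p hp hpd => ?_⟩
    · rw [e]
      have h5 : (q : ℝ) * (M + 2) ≤ q * ((n + j * d + h : ℕ) : ℝ) := by gcongr
      nlinarith
    · rw [e]
      have h5 : (q : ℝ) * ((n + j * d + h : ℕ) : ℝ) ≤ q * (M + 1 + L) := by gcongr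
      nlinarith
    · refine le_trans ?_ (a3 p hp hpd)
      exact Real.rpow_le_rpow hx0.le hYge (by positivity)

end Pool.Agent.K3h21.LN
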