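import Pool.Agent.K3h21.LN.CoreU

set_option autoImplicit false
set_option linter.unusedSectionVars false
set_option linter.unusedVariables false

/-! The product of the shifts of a system, with bounds which do not depend on the system. -/

namespace Pool.Agent.K3h21.LN

open Finset Filter
open Pool.Agent.Y677.RSZ (rt Sys rhoT per_mod ev_log V)
open Pool.Agent.TH423.SH (PS)
open Pool.Agent.W23.DC
open Pool.Agent.R498.MT

/-- the product of the shifts of a function -/
def FF (F : ℤ → ℤ) (W : ℕ) {n : ℕ} (t : Fin n → ℕ) (x : ℤ) : ℤ := ∏ i, F (x + ((W * t i : ℕ) : ℤ))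

theorem FF_dvd (F : ℤ → ℤ) (W b : ℕ) {n : ℕ} (t : Fin n → ℕ) (p : ℕ) (hp : p.Prime) (K : ℕ) :
    (p : ℤ) ∣ FF F W t ((W * K + b : ℕ) : ℤ) ↔
      ∃ i, (p : ℤ) ∣ F ((W * (K + t i) + b : ℕ) : ℤ) := by
  unfold FF
  have hp' : Prime (p : ℤ) := Nat.prime_iff_prime_int.1 hp
  rw [hp'.dvd_finsetProd_iff]
  simp only [mem_univ, true_and]
  have e : ∀ i, ((W * K + b : ℕ) : ℤ) + ((W * t i : ℕ) : ℤ) = ((W * (K + t i) + b : ℕ) : ℤ) := by
    intro i
    push_cast
    ring
  simp_rw [e]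

theorem FF_dvd' (F : ℤ → ℤ) (W : ℕ) {n : ℕ} (t : Fin n → ℕ) (p : ℕ) (hp : p.Prime) (x : ℤ) :
    (p : ℤ) ∣ FF F W t x ↔ ∃ i, (p : ℤ) ∣ F (x + ((W * t i : ℕ) : ℤ)) := by
  unfold FF
  have hp' : Prime (p : ℤ) := Nat.prime_iff_prime_int.1 hp
  rw [hp'.dvd_finsetProd_iff]
  simp only [mem_univ, true_and]

theorem FF_per (F : ℤ → ℤ) (g : ℕ) (hF : Sys g F) (W : ℕ) {n : ℕ} (t : Fin n → ℕ) (p : ℕ)
    (hp : p.Prime) (m : ℤ) : (p : ℤ) ∣ FF F W t (m + p) - FF F W t m := by
  have h : ∀ s : Finset (Fin n), (p : ℤ) ∣ ∏ i ∈ s, F (m + p + ((W * t i : ℕ) : ℤ)) -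
      ∏ i ∈ s, F (m + ((W * t i : ℕ) : ℤ)) := by
    intro s
    classical
    induction s using Finset.induction_on with
    | empty => simp
    | insert a s ha ih =>
      rw [prod_insert ha, prod_insert ha]
      have h1 := hF.per p hp (m + ((W * t a : ℕ) : ℤ))
      rw [show m + ((W * t a : ℕ) : ℤ) + (p : ℤ) = m + p + ((W * t a : ℕ) : ℤ) by ring] at h1
      have e : F (m + p + ((W * t a : ℕ) : ℤ)) * ∏ i ∈ s, F (m + p + ((W * t i : ℕ) : ℤ)) -
          F (m + ((W * t a : ℕ) : ℤ)) * ∏ i ∈ s, F (m + ((W * t i : ℕ) : ℤ)) =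
          (F (m + p + ((W * t a : ℕ) : ℤ)) - F (m + ((W * t a : ℕ) : ℤ))) *
            ∏ i ∈ s, F (m + p + ((W * t i : ℕ) : ℤ)) +
          F (m + ((W * t a : ℕ) : ℤ)) * (∏ i ∈ s, F (m + p + ((W * t i : ℕ) : ℤ)) -
            ∏ i ∈ s, F (m + ((W * t i : ℕ) : ℤ))) := by ring
      rw [e]
      exact dvd_add (h1.mul_right _) (ih.mul_left _)
  exact h univ

theorem FF_rt (F : ℤ → ℤ) (g : ℕ) (hF : Sys g F) (W b : ℕ) {n : ℕ}
    (t : Fin n → ℕ) (p : ℕ) (hp : p.Prime) (hW : ¬ p ∣ W) :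
    rt (FF F W t) p = rhoT F W b t p := by
  classical
  have hper : ∀ m : ℤ, (p : ℤ) ∣ (FF F W t) (m + p) - (FF F W t) m := FF_per F g hF W t p hp
  have h1 := Pool.Agent.Y833.RSZ.card_shift (F := FF F W t) hp hper W b 0 hW
  rw [← h1]
  unfold rhoT
  apply congrArg Finset.card
  ext r
  rw [mem_filter, mem_filter, add_zero]
  rw [FF_dvd F W b t p hp r]

/-- the product system -/
theorem FF_sys (g n W : ℕ) (hW : 0 < W) (t : Fin n → ℕ)
    (hWp : ∀ p : ℕ, p.Prime → p ≤ g * n + 1 → p ∣ W) : ∃ g' : ℕ, ∀ F : ℤ → ℤ, Sys g F → ∀ b : ℕ,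
      (∀ p : ℕ, p.Prime → p ∣ W → ¬ (p : ℤ) ∣ F (b : ℤ)) → Sys g' (FF F W t) := by
  classical
  obtain ⟨T, hT⟩ : ∃ T : ℕ, ∀ i, W * t i ≤ T :=
    ⟨univ.sup (fun i => W * t i), fun i => Finset.le_sup (f := fun i => W * t i) (mem_univ i)⟩
  refine ⟨T + g + W + n * g + 2 * g * (n * n) + 2, fun F hF b hb => ?_⟩
  refine ⟨FF_per F g hF W t, fun p hp => ?_, ?_⟩
  · by_cases hpW : p ∣ W
    · have h1 : ¬ (p : ℤ) ∣ FF F W t ((b % p : ℕ) : ℤ) := by
        intro h
        have h2 : (p : ℤ) ∣ FF F W t ((W * 0 + b : ℕ) : ℤ) := by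
          refine (per_mod (F := FF F W t) (FF_per F g hF W t) hp (W * 0 + b) (b % p) ?_).2 h
          have : b % p ≡ b [MOD p] := Nat.mod_modEq b p
          simpa using this.symm
        obtain ⟨i, hi⟩ := (FF_dvd F W b t p hp 0).1 h2
        apply hb p hp hpW
        refine (per_mod (F := F) hF.per hp (W * (0 + t i) + b) b ?_).1 hi
        have : W * (0 + t i) ≡ 0 [MOD p] := (Nat.modEq_zero_iff_dvd).2 (hpW.mul_right _)
        simpa using this.add_right b
      have h3 : rt (FF F W t) p < p := by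
        unfold rt
        calc ((range p).filter (fun r : ℕ => (p : ℤ) ∣ FF F W t r)).card < (range p).card := by
              apply card_lt_card
              refine ⟨filter_subset _ _, fun hcon => ?_⟩
              have h4 := hcon (mem_range.2 (Nat.mod_lt b hp.pos))
              exact h1 (mem_filter.1 h4).2
          _ = p := card_range p
      have h4 : p ≤ W := Nat.le_of_dvd hW hpW
      exact ⟨by omega, h3⟩
    · have h0 := FF_rt F g hF W b t p hp hpW
      have h2 := Pool.Agent.Y833.RSZ.rhoT_le (F := F) hp (hF.per p hp) W b t hpW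
      have h3 : n * rt F p ≤ n * g := Nat.mul_le_mul_left _ (hF.root p hp).1
      have h4 : g * n + 1 < p := by
        by_contra hcon
        exact hpW (hWp p hp (not_lt.1 hcon))
      have h5 : n * g = g * n := mul_comm _ _
      rw [h0]
      constructor <;> omega
  · obtain ⟨Δ, hΔ⟩ := hF.coll
    refine ⟨fun h => ∏ ij : Fin n × Fin n, Δ (h + W * t ij.2 - W * t ij.1), fun h hh => ?_⟩
    have hh' : ∀ ij : Fin n × Fin n, g ≤ h + W * t ij.2 - W * t ij.1 ∧
        h + W * t ij.2 - W * t ij.1 ≤ h * h := by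
      intro ij
      have h1 := hT ij.1
      have h2 := hT ij.2
      have h3 : 2 * h ≤ h * h := Nat.mul_le_mul_right _ (by omega)
      omega
    refine ⟨?_, ?_, ?_⟩
    · exact Nat.one_le_iff_ne_zero.2 (Finset.prod_ne_zero_iff.2 fun ij _ => by
        have := (hΔ _ (hh' ij).1).1
        omega)
    · calc ∏ ij : Fin n × Fin n, Δ (h + W * t ij.2 - W * t ij.1) ≤
          ∏ _ij : Fin n × Fin n, (h * h) ^ g := by
            apply prod_le_prod' 
            intro ij _
            exact ((hΔ _ (hh' ij).1).2.1).trans (Nat.pow_le_pow_left (hh' ij).2 g)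
        _ = h ^ (2 * g * (n * n)) := by
            rw [prod_const, card_univ, Fintype.card_prod, Fintype.card_fin, ← sq, ← pow_mul,
              ← pow_mul]
            congr 1
            ring
        _ ≤ h ^ (T + g + W + n * g + 2 * g * (n * n) + 2) :=
            Nat.pow_le_pow_right (by omega) (by omega)
    · intro p hp x h1 h2
      obtain ⟨i, hi⟩ := (FF_dvd' F W t p hp x).1 h1
      obtain ⟨j, hj⟩ := (FF_dvd' F W t p hp (x + h)).1 h2
      have h3 := hT i
      have h4 := (hΔ _ (hh' (i, j)).1).2.2 p hp (x + ((W * t i : ℕ) : ℤ)) hi (by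
        have e : x + ((W * t i : ℕ) : ℤ) + ((h + W * t (i, j).2 - W * t (i, j).1 : ℕ) : ℤ) =
            x + h + ((W * t j : ℕ) : ℤ) := by
          rw [Nat.cast_sub (by
            show W * t i ≤ h + W * t j
            omega)]
          push_cast
          ring
        rw [e]
        exact hj)
      exact h4.trans (Finset.dvd_prod_of_mem (fun ij : Fin n × Fin n =>
        Δ (h + W * t ij.2 - W * t ij.1)) (mem_univ (i, j)))

/-- comparison of the sieve products -/
theorem FF_V (F : ℤ → ℤ) (g : ℕ) (hF : Sys g F) (W b z H : ℕ) {n : ℕ}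
    (t : Fin n → ℕ) (hzH : z ≤ H) : V (FF F W t) 1 H ≤ Vp F W b z t := by
  classical
  have e : Vp F W b z t = ∏ p ∈ PS W z, (1 - (rt (FF F W t) p : ℝ) / p) := by
    unfold Vp
    refine prod_congr rfl fun p hp => ?_
    unfold PS at hp
    rw [mem_filter] at hp
    rw [FF_rt F g hF W b t p hp.2.1 hp.2.2]
  rw [e]
  unfold V
  have hsub : PS W z ⊆ PS 1 H := by
    intro p hp
    unfold PS at hp ⊢
    rw [mem_filter, mem_Icc] at hp ⊢
    exact ⟨⟨hp.1.1, hp.1.2.trans hzH⟩, hp.2.1, by rw [Nat.dvd_one]; exact hp.2.1.ne_one⟩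
  rw [← prod_sdiff hsub]
  exact mul_le_of_le_one_left (prod_nonneg fun p _ => Pool.Agent.Y677.RSZ.fac_nonneg p)
    (prod_le_one (fun p _ => Pool.Agent.Y677.RSZ.fac_nonneg p)
      (fun p _ => Pool.Agent.Y677.RSZ.fac_le p))

end Pool.Agent.K3h21.LN
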